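import Pool.Agent.Helper79.SA.Goals

/-!
# Packet SVA (project SA, helper79): some analytic set is not in the sigma-algebra
-/

open MeasureTheory Filter Topology Set
open scoped Cardinal

noncomputable section

namespace SA.PkSVA

open Pool.Agent.Helper97.Ku

theorem eqB_open (n : ℕ) (x : Rl) : IsOpen {y : Rl | EqB n x y} := by
  have h : {y : Rl | EqB n x y} = ⋂ j ∈ Finset.range n, {y : Rl | y j = x j} := by
    ext y
    simp only [EqB, mem_ofPred_eq, mem_iInter, Finset.mem_range]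
    exact ⟨fun h j hj => (h j hj).symm, fun h j hj => (h j hj).symm⟩
  rw [h]
  refine isOpen_biInter_finset fun j _ => ?_
  have hc : Continuous (fun y : Rl => y j) := continuous_apply j
  exact (isOpen_discrete ({x j} : Set Bool)).preimage hc

theorem mp_cont (P : Mp) : Continuous P.f := by
  refine continuous_pi fun i => ?_
  have h : IsLocallyConstant (fun x : Rl => P.f x i) := by
    rw [IsLocallyConstant.iff_exists_open]
    intro x
    refine ⟨{y | EqB (i + 1) x y}, eqB_open _ _, fun _ _ => rfl, fun y hy => ?_⟩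
    exact (P.lip (i + 1) x y hy i (by omega)).symm
  exact h.continuous

theorem mp_inv (P : Mp) : ∃ g : Rl → Rl, Measurable g ∧ ∀ w, g (P.f w) = w := by
  have h1 : MeasurableEmbedding P.f := (mp_cont P).measurable.measurableEmbedding P.inj
  obtain ⟨g, hg, hg'⟩ := h1.exists_measurable_extend (g := id) measurable_id
    (fun _ => ⟨fun _ => false⟩)
  exact ⟨g, hg, fun w => congrFun hg' w⟩

theorem ev_jn (u v : Rl) : ev ((jn u).f v) = u := by
  funext i
  have h1 : 2 * i % 2 = 0 := by omega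
  have h2 : 2 * i / 2 = i := by omega
  simp [ev, jn, h2]

theorem jn_meas {K : Type} (f : (K → Rl) → Rl) (hf : Measurable f) (y0 : Rl) :
    Measurable (fun z : K → Rl => (jn (f z)).f y0) := by
  refine measurable_pi_iff.2 fun i => ?_
  by_cases h : i % 2 = 0
  · simp only [jn, h, if_true]
    exact (measurable_pi_apply _).comp hf
  · simp only [jn, h, if_false]
    exact measurable_const

theorem iff_of {P : Type} [Preorder P] {a b : RO P} {r : P} (h : r ∈ NU.iffV a b) :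
    (r ∈ a → r ∈ b) ∧ (r ∈ b → r ∈ a) :=
  ⟨fun ha => RO.mem_himp.1 h.1 r le_rfl ha, fun hb => RO.mem_himp.1 h.2 r le_rfl hb⟩

open Classical in
theorem amalg {K : Type} {w : K → ℕ → RO (Cnd K)} {p : Cnd K} (d : Dat w p) (b : Set K)
    (hb : b.Countable) (q1 : Cnd K) (h1 : q1 ≤ d.pr) :
    ∃ ξ ∈ d.Sb b, ∃ qs : Cnd K, qs ≤ q1 ∧ qs ≤ d.q ξ ∧ qs.m ξ = d.P := by
  set b' : Set K := b ∪ {c | q1.m c ≠ 1} ∪ d.r with hb'
  have hbc : b'.Countable := (hb.union q1.ct).union d.hr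
  obtain ⟨ξ, hξS, hξb, hξ⟩ := d.hS b' hbc
  have hsup : ∀ c, c ∉ b' → q1.m c = 1 := by
    intro c hc
    by_contra h
    exact hc (Or.inl (Or.inr h))
  obtain ⟨g, hg⟩ := h1
  refine ⟨ξ, ⟨hξS, fun k hk => hξ k (Or.inl (Or.inl hk))⟩,
    ⟨fun c => if c ∈ b' then q1.m c else (d.q ξ).m c, ?_⟩, ?_, ?_, ?_⟩
  · refine (hbc.union (d.q ξ).ct).mono fun c hc => ?_
    by_cases h : c ∈ b'
    · exact Or.inl h
    · refine Or.inr ?_
      simpa [h] using hc
  · refine ⟨⟨fun c => if c ∈ b' then 1 else (d.q ξ).m c, ?_⟩, ?_⟩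
    · refine (d.q ξ).ct.mono fun c hc => ?_
      by_cases h : c ∈ b'
      · simp [h] at hc
      · simpa [h] using hc
    · apply Cnd.ext
      funext c
      rw [Cnd.mul_m]
      by_cases h : c ∈ b'
      · simp [h]
      · simp [h, hsup c h]
  · refine ⟨⟨fun c => if c ∈ b' then (if c ∈ d.r then g.m c else q1.m c) else 1, ?_⟩, ?_⟩
    · refine hbc.mono fun c hc => ?_
      by_contra h
      simp [h] at hc
    · apply Cnd.ext
      funext c
      rw [Cnd.mul_m]
      by_cases h : c ∈ b'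
      · by_cases h2 : c ∈ d.r
        · simp only [h, h2, if_true]
          rw [d.hpr ξ hξS c h2, hg, Cnd.mul_m]
        · simp only [h, h2, if_true, if_false]
          have h3 : (d.q ξ).m c = 1 := by
            by_contra h4
            obtain ⟨k, hk⟩ := d.hs ξ hξS c h4
            have h5 := hξ k (hk ▸ h)
            rw [hk] at h5
            exact h2 h5
          rw [h3, one_mul]
      · simp [h]
  · simp only [hξb, if_false]
    exact d.hP ξ hξS

theorem sva (eh : G_EH) (pul : G_PUL) (spl : G_SPL) (uni : G_UNI) (tt : G_TT) (an0 : G_AN0)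
    (an1 : G_AN1) : G_SVA := by
  intro K _ w p d
  obtain ⟨T, hT1, hT2⟩ := tt d.P
  refine ⟨T, RO.mem_compl.2 fun q hq hqs => ?_⟩
  rw [Dat.sv] at hqs
  obtain ⟨q1, hq1, b, hq1'⟩ := RO.mem_iSup.1 hqs q le_rfl
  obtain ⟨q2, hq2, hb, hq2'⟩ := RO.mem_iSup.1 hq1' q1 le_rfl
  obtain ⟨q3, hq3, B, hq3'⟩ := RO.mem_iSup.1 hq2' q2 le_rfl
  obtain ⟨q4, hq4, hB, hq4'⟩ := RO.mem_iSup.1 hq3' q3 le_rfl
  have hle : q4 ≤ d.pr := hq4.trans (hq3.trans (hq2.trans (hq1.trans hq)))
  obtain ⟨ξ, hξ, qs, hqs1, hqs2, hqs3⟩ := amalg d b hb q4 hle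
  have hkey : ∀ r, r ≤ qs → r ∈ NU.iffV (anV T (gx ξ))
      (ee {z | (z, fun k => z (d.io ξ k)) ∈ B}) := by
    intro r hr
    have h1 := RO.mem_iInf.1 (RO.mem_iInf.1 hq4' ξ) hξ
    refine RO.mem_himp.1 h1 r (hr.trans hqs1) ?_
    exact RO.mem_cl.2 fun s hs => ⟨s, le_rfl, hs.trans (hr.trans hqs2)⟩
  have hZ : MeasurableSet {z : K → Rl | (z, fun k => z (d.io ξ k)) ∈ B} := by
    have hm : Measurable (fun z : K → Rl => (z, fun k => z (d.io ξ k))) :=
      measurable_id.prodMk (measurable_pi_iff.2 fun k => measurable_pi_apply _)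
    exact hm hB
  obtain ⟨B0, hB0, hpul⟩ := pul K qs ξ _ hZ
  obtain ⟨D, hD, hD1, hD2⟩ := spl B0 hB0
  obtain ⟨u0, hu0⟩ := uni Dᶜ hD.compl
  obtain ⟨e1, -, e3, -⟩ := eh K
  by_cases hu : u0 ∈ D
  · obtain ⟨g, hg⟩ := hD1 u0 hu
    obtain ⟨r, hr, hr1, hr2, -⟩ := hpul u0 g
    have hn : r ∈ (anV T (gx ξ))ᶜ := by
      refine an0 K T ξ r fun z hz hzT => ?_
      obtain ⟨v, hv⟩ := hr1 z hz
      obtain ⟨x, hx, hx'⟩ := hT1 _ hzT
      rw [hqs3] at hv
      have h1 : x = (jn u0).f v := d.P.inj (hx.trans hv)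
      rw [h1, ev_jn, hu0] at hx'
      exact hx' hu
    have hp := (iff_of (hkey r hr)).2 (e1 r _ (hr2 hg))
    exact RO.not_mem_compl hp hn
  · obtain ⟨g, hg⟩ := hD2 u0 hu
    obtain ⟨r, hr, hr1, -, hr2⟩ := hpul u0 g
    have hn : r ∈ (ee {z : K → Rl | (z, fun k => z (d.io ξ k)) ∈ B})ᶜ := e3 r _ (hr2 hg)
    have hmem : u0 ∈ PT (tau u0) := by
      rw [hu0]; exact hu
    obtain ⟨y0, hy0⟩ := hmem
    obtain ⟨pinv, hpm, hpi⟩ := mp_inv d.P
    have hp : r ∈ anV T (gx ξ) := by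
      refine an1 K T ξ r (fun z => (jn (pinv (z ξ))).f y0)
        (jn_meas (fun z : K → Rl => pinv (z ξ)) (hpm.comp (measurable_pi_apply ξ)) y0)
        fun z hz => ?_
      obtain ⟨v, hv⟩ := hr1 z hz
      rw [hqs3] at hv
      have h1 : pinv (z ξ) = (jn u0).f v := by rw [hv, hpi]
      show (z ξ, (jn (pinv (z ξ))).f y0) ∈ GT T
      rw [h1, hv]
      refine hT2 _ _ ?_
      rw [ev_jn]
      exact hy0
    exact RO.not_mem_compl ((iff_of (hkey r hr)).1 hp) hn

end SA.PkSVA
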